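import Pool.Agent.R260.IlB

set_option autoImplicit false

open Finset ComplexConjugate ComplexOrder Pool.Agent.R260.Il

namespace Pool.Agent.Results.MP_60133c_an.AllZerosPositive

/-- The denominator `Q(t) + z t^r` as a power series in `t`, for a complex number `z`. -/
noncomputable def F (Q : Polynomial ℝ) (r : ℕ) (z : ℂ) : PowerSeries ℂ :=
  ((Q.map (algebraMap ℝ ℂ) : Polynomial ℂ) : PowerSeries ℂ) + PowerSeries.C z * PowerSeries.X ^ r

/-- The value `P_m(z)`: the coefficient of `t^m` of `1 / (Q(t) + z t^r)`. -/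
noncomputable def val (Q : Polynomial ℝ) (r m : ℕ) (z : ℂ) : ℂ := PowerSeries.coeff m (F Q r z)⁻¹

/-- factorisation of `Q` -/
lemma factor (Q : Polynomial ℝ) (h0 : 0 < Q.eval 0) (hdeg : 1 ≤ Q.natDegree)
    (hroots : ∀ ζ : ℂ, Polynomial.aeval ζ Q = 0 → ζ.im = 0 ∧ 0 < ζ.re) :
    ∃ (n : ℕ) (a : ℕ → ℝ), 1 ≤ n ∧ (∀ i, 0 < a i) ∧
      ((Q.map (algebraMap ℝ ℂ) : Polynomial ℂ) : PowerSeries ℂ)
        = PowerSeries.C ((Q.eval 0 : ℝ) : ℂ) * Pr a n := by
  set q := Q.map (algebraMap ℝ ℂ) with hq
  have hsp := (IsAlgClosed.splits q)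
  have hcard : q.natDegree = Multiset.card q.roots := hsp.natDegree_eq_card_roots
  have hqd : q.natDegree = Q.natDegree := Polynomial.natDegree_map _
  have hQ0 : Q ≠ 0 := by intro h; rw [h] at h0; simp at h0
  have hq0 : q ≠ 0 := by
    rw [hq]; exact (Polynomial.map_ne_zero_iff (algebraMap ℝ ℂ).injective).mpr hQ0
  obtain ⟨a, ha, k, hk⟩ := prod_roots q.roots (by
    intro x hx
    apply hroots
    have := (Polynomial.mem_roots'.mp hx).2
    rw [Polynomial.IsRoot.def, hq, Polynomial.eval_map_algebraMap] at this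
    exact this)
  have hprod := hsp.eq_prod_roots
  rw [hk, ← mul_assoc, ← Polynomial.C_mul] at hprod
  have hN1 : 1 ≤ Multiset.card q.roots := by omega
  generalize Multiset.card q.roots = N at hprod hN1
  refine ⟨N, a, hN1, ha, ?_⟩
  set K := q.leadingCoeff * k with hK
  have hK0 : K = ((Q.eval 0 : ℝ) : ℂ) := by
    have h1 := congrArg (Polynomial.eval 0) hprod
    rw [Polynomial.eval_mul, Polynomial.eval_C, Polynomial.eval_prod] at h1
    simp only [Polynomial.eval_sub, Polynomial.eval_one, Polynomial.eval_mul, Polynomial.eval_C,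
      Polynomial.eval_X, mul_zero, sub_zero, prod_const_one, mul_one] at h1
    rw [← h1, hq, Polynomial.eval_map_algebraMap, Polynomial.aeval_def,
      Polynomial.eval₂_at_zero, Polynomial.coeff_zero_eq_eval_zero]
    rfl
  rw [hprod, Polynomial.coe_mul, Polynomial.coe_C, hK0]
  congr 1
  unfold Pr
  have : ∀ s : Finset ℕ, ((∏ i ∈ s, (1 - Polynomial.C (a i : ℂ) * Polynomial.X) : Polynomial ℂ) : PowerSeries ℂ)
      = ∏ i ∈ s, (1 - PowerSeries.C (a i : ℂ) * PowerSeries.X) := by
    intro s
    classical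
    induction s using Finset.induction_on with
    | empty => simp
    | insert i s hi ih =>
      rw [prod_insert hi, prod_insert hi, Polynomial.coe_mul, ih]
      congr 1
      simp
  exact this _

/-- the bivariate denominator over `ℝ[X]` -/
noncomputable def A (Q : Polynomial ℝ) (r : ℕ) : PowerSeries (Polynomial ℝ) :=
  PowerSeries.map (Polynomial.C : ℝ →+* Polynomial ℝ) (Q : PowerSeries ℝ)
    + PowerSeries.C (Polynomial.X : Polynomial ℝ) * PowerSeries.X ^ r

lemma map_A (Q : Polynomial ℝ) (r : ℕ) (z : ℂ) :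
    PowerSeries.map ((Polynomial.aeval z : Polynomial ℝ →ₐ[ℝ] ℂ) : Polynomial ℝ →+* ℂ) (A Q r)
      = F Q r z := by
  unfold A F
  rw [map_add, map_mul, map_pow, PowerSeries.map_C, PowerSeries.map_X]
  congr 1
  · ext k
    simp [PowerSeries.coeff_map, Polynomial.coeff_coe]
  · congr 2
    simp

/-- the rescaled denominator for `r = 0` -/
noncomputable def B (Q : Polynomial ℝ) : PowerSeries (Polynomial ℝ) :=
  PowerSeries.mk fun j => if j = 0 then 1 else
    Polynomial.C (Q.coeff j) * (Polynomial.C (Q.eval 0) + Polynomial.X) ^ (j - 1)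

lemma map_B (Q : Polynomial ℝ) (z : ℂ) (hz : ((Q.eval 0 : ℝ) : ℂ) + z ≠ 0) :
    PowerSeries.map ((Polynomial.aeval z : Polynomial ℝ →ₐ[ℝ] ℂ) : Polynomial ℝ →+* ℂ) (B Q)
      = PowerSeries.C ((((Q.eval 0 : ℝ) : ℂ) + z)⁻¹) *
        PowerSeries.rescale (((Q.eval 0 : ℝ) : ℂ) + z) (F Q 0 z) := by
  set w := ((Q.eval 0 : ℝ) : ℂ) + z with hw
  ext j
  rw [PowerSeries.coeff_map, PowerSeries.coeff_C_mul, PowerSeries.coeff_rescale, B,
    PowerSeries.coeff_mk]
  unfold F
  rw [pow_zero, mul_one, map_add, Polynomial.coeff_coe, Polynomial.coeff_map, PowerSeries.coeff_C]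
  rcases j with _ | j
  · rw [if_pos rfl, if_pos rfl, pow_zero, one_mul, Polynomial.coeff_zero_eq_eval_zero]
    rw [show (algebraMap ℝ ℂ) (Polynomial.eval 0 Q) + z = w from rfl, inv_mul_cancel₀ hz]
    simp
  · rw [if_neg (by omega), if_neg (by omega), add_zero, Nat.add_sub_cancel]
    simp only [RingHom.coe_coe, map_mul, Polynomial.aeval_C, map_pow, map_add, Polynomial.aeval_X]
    rw [show (algebraMap ℝ ℂ) (Polynomial.eval 0 Q) + z = w from rfl, pow_succ]
    field_simp

/-- MP_60133c_an, Q1: all zeros of all `P_m` lie in `(0, infinity)`. -/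
theorem result (Q : Polynomial ℝ) (h0 : 0 < Q.eval 0) (hdeg : 1 ≤ Q.natDegree)
    (hroots : ∀ ζ : ℂ, Polynomial.aeval ζ Q = 0 → ζ.im = 0 ∧ 0 < ζ.re) (m : ℕ) :
    (∀ r : ℕ, 1 ≤ r → ∃ P : Polynomial ℝ, P ≠ 0 ∧ (∀ z : ℂ, val Q r m z = Polynomial.aeval z P) ∧
      ∀ ζ : ℂ, Polynomial.aeval ζ P = 0 → ζ.im = 0 ∧ 0 < ζ.re) ∧
    (∃ M : Polynomial ℝ, M ≠ 0 ∧
      (∀ z : ℂ, z ≠ -((Q.eval 0 : ℝ) : ℂ) →
        val Q 0 m z = Polynomial.aeval z M / (((Q.eval 0 : ℝ) : ℂ) + z) ^ (m + 1)) ∧
      M.eval (-Q.eval 0) ≠ 0 ∧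
      ∀ ζ : ℂ, Polynomial.aeval ζ M = 0 → ζ.im = 0 ∧ 0 < ζ.re) := by
  obtain ⟨n, a, hn, ha, hfac⟩ := factor Q h0 hdeg hroots
  set q0 : ℝ := Q.eval 0 with hq0
  have hq0c : (q0 : ℂ) ≠ 0 := by exact_mod_cast h0.ne'
  -- F is q0 times HH
  have hF : ∀ (r : ℕ) (z : ℂ), F Q r z = PowerSeries.C (q0 : ℂ) * HH a n r (-z / q0) := by
    intro r z
    unfold F HH
    rw [hfac, mul_sub, ← mul_assoc, ← map_mul]
    have : (q0 : ℂ) * (-z / q0) = -z := by field_simp
    rw [this, map_neg]
    ring
  have hFinv : ∀ (r : ℕ) (z : ℂ), (F Q r z)⁻¹ = PowerSeries.C ((q0 : ℂ)⁻¹) * (HH a n r (-z / q0))⁻¹ := by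
    intro r z
    rw [hF, PowerSeries.mul_inv_rev, PowerSeries.C_inv, mul_comm]
  have hval : ∀ (r : ℕ) (z : ℂ), val Q r m z = (q0 : ℂ)⁻¹ * cc a n r (-z / q0) 0 m := by
    intro r z
    unfold val cc
    rw [hFinv, PowerSeries.coeff_C_mul, Pr_zero, one_mul]
  have him : ∀ z : ℂ, (-z / q0).im = -z.im / q0 := by
    intro z
    rw [Complex.div_ofReal_im, Complex.neg_im]
  have hqinv : (q0 : ℂ)⁻¹ ≠ 0 := inv_ne_zero hq0c
  constructor
  · intro r hr
    -- the polynomial
    have hcA : PowerSeries.constantCoeff (A Q r) = Polynomial.C q0 := by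
      unfold A
      rw [map_add, map_mul, map_pow]
      have h1 : PowerSeries.constantCoeff (PowerSeries.map (Polynomial.C : ℝ →+* Polynomial ℝ) (Q : PowerSeries ℝ))
          = Polynomial.C q0 := by
        rw [← PowerSeries.coeff_zero_eq_constantCoeff_apply, PowerSeries.coeff_map,
          Polynomial.coeff_coe, Polynomial.coeff_zero_eq_eval_zero]
      rw [h1]
      simp [show r ≠ 0 by omega]
    have hunit : IsUnit (Polynomial.C q0) := Polynomial.isUnit_C.mpr (IsUnit.mk0 _ h0.ne')
    set u := hunit.unit with hu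
    have hAinv : A Q r * PowerSeries.invOfUnit (A Q r) u = 1 :=
      PowerSeries.mul_invOfUnit _ _ (by rw [hcA]; rfl)
    set P := PowerSeries.coeff m (PowerSeries.invOfUnit (A Q r) u) with hP
    have hPval : ∀ z : ℂ, val Q r m z = Polynomial.aeval z P := by
      intro z
      set φ := ((Polynomial.aeval z : Polynomial ℝ →ₐ[ℝ] ℂ) : Polynomial ℝ →+* ℂ) with hφ
      have h1 := congrArg (PowerSeries.map φ) hAinv
      rw [map_mul, map_one, map_A] at h1
      have hc : PowerSeries.constantCoeff (F Q r z) ≠ 0 := by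
        rw [hF, map_mul, HH_const a n r _ hr]
        simpa using h0.ne'
      have h2 : PowerSeries.map φ (PowerSeries.invOfUnit (A Q r) u) = (F Q r z)⁻¹ := by
        rw [PowerSeries.eq_inv_iff_mul_eq_one hc, mul_comm]; exact h1
      unfold val
      rw [← h2, PowerSeries.coeff_map]
      rfl
    -- values off the negative ray in `y`
    have key : ∀ ζ : ℂ, 0 < ζ.im → Polynomial.aeval ζ P ≠ 0 := by
      intro ζ hζ h
      have hc : Polynomial.aeval (conj ζ) P = 0 := by
        rw [Polynomial.aeval_conj, h, map_zero]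
      rw [← hPval, hval] at hc
      have hy : 0 < (-(conj ζ) / q0 : ℂ).im := by
        rw [him, Complex.conj_im, neg_neg]; positivity
      have := (inv_all hn hr ha hy (rec_cc a n r _ hr) m).four 0 (by omega)
      exact (mul_ne_zero hqinv this) hc
    have hreal : ∀ x : ℝ, x ≤ 0 → Polynomial.aeval (x : ℂ) P ≠ 0 := by
      intro x hx h
      rw [← hPval, hval] at h
      have e : (-(x:ℂ) / q0) = ((-x / q0 : ℝ) : ℂ) := by push_cast; ring
      rw [e] at h
      have := pos_cc a ha n r (-x / q0) (div_nonneg (by linarith) h0.le) hr m 0 (by omega)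
      exact (mul_ne_zero hqinv this.ne') h
    refine ⟨P, ?_, hPval, ?_⟩
    · intro h
      apply hreal 0 le_rfl
      rw [h]; simp
    · intro ζ hζ
      have h1 : ζ.im = 0 := by
        rcases lt_trichotomy ζ.im 0 with h | h | h
        · exfalso
          apply key (conj ζ) (by rw [Complex.conj_im]; linarith)
          rw [Polynomial.aeval_conj, hζ, map_zero]
        · exact h
        · exact absurd hζ (key ζ h)
      refine ⟨h1, ?_⟩
      by_contra h2
      push Not at h2
      apply hreal ζ.re h2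
      have : ((ζ.re : ℝ) : ℂ) = ζ := by apply Complex.ext <;> simp [h1]
      rw [this]; exact hζ
  · -- r = 0
    have hcB : PowerSeries.constantCoeff (B Q) = ((1 : (Polynomial ℝ)ˣ) : Polynomial ℝ) := by
      rw [← PowerSeries.coeff_zero_eq_constantCoeff_apply, B, PowerSeries.coeff_mk, if_pos rfl]
      rfl
    have hBinv : B Q * PowerSeries.invOfUnit (B Q) 1 = 1 := PowerSeries.mul_invOfUnit _ _ hcB
    set M := PowerSeries.coeff m (PowerSeries.invOfUnit (B Q) 1) with hM
    have hMval : ∀ z : ℂ, (q0 : ℂ) + z ≠ 0 →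
        Polynomial.aeval z M = ((q0:ℂ) + z)^(m+1) * val Q 0 m z := by
      intro z hz
      set φ := ((Polynomial.aeval z : Polynomial ℝ →ₐ[ℝ] ℂ) : Polynomial ℝ →+* ℂ) with hφ
      set w := (q0:ℂ) + z with hw
      have h1 := congrArg (PowerSeries.map φ) hBinv
      rw [map_mul, map_one, map_B Q z hz] at h1
      have hcF : PowerSeries.constantCoeff (F Q 0 z) ≠ 0 := by
        rw [hF, map_mul, HH_const0]
        have e : (1 - -z / (q0:ℂ)) = w / q0 := by rw [hw]; field_simp; ring
        rw [e]
        simp only [PowerSeries.constantCoeff_C]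
        exact mul_ne_zero hq0c (div_ne_zero hz hq0c)
      have h3 : PowerSeries.rescale w (F Q 0 z) * PowerSeries.rescale w ((F Q 0 z)⁻¹) = 1 := by
        rw [← map_mul, PowerSeries.mul_inv_cancel _ hcF, map_one]
      have h4 : PowerSeries.map φ (PowerSeries.invOfUnit (B Q) 1)
          = PowerSeries.C w * PowerSeries.rescale w ((F Q 0 z)⁻¹) := by
        have hCC : PowerSeries.C w * PowerSeries.C w⁻¹ = (1 : PowerSeries ℂ) := by
          rw [← map_mul, mul_inv_cancel₀ hz, map_one]
        calc PowerSeries.map φ (PowerSeries.invOfUnit (B Q) 1)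
            = (PowerSeries.C w * PowerSeries.C w⁻¹) *
              (PowerSeries.rescale w (F Q 0 z) * PowerSeries.rescale w ((F Q 0 z)⁻¹)) *
              PowerSeries.map φ (PowerSeries.invOfUnit (B Q) 1) := by rw [hCC, h3]; ring
          _ = PowerSeries.C w * PowerSeries.rescale w ((F Q 0 z)⁻¹) *
              (PowerSeries.C w⁻¹ * PowerSeries.rescale w (F Q 0 z) *
              PowerSeries.map φ (PowerSeries.invOfUnit (B Q) 1)) := by ring
          _ = _ := by rw [h1, mul_one]
      have h5 := congrArg (PowerSeries.coeff m) h4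
      rw [PowerSeries.coeff_map, PowerSeries.coeff_C_mul, PowerSeries.coeff_rescale] at h5
      show φ M = _
      rw [h5]
      unfold val
      rw [pow_succ]; ring
    have hMcc : ∀ z : ℂ, (q0 : ℂ) + z ≠ 0 → Polynomial.aeval z M
        = (q0:ℂ)^m * ((1 - (-z / q0))^(m+1) * cc a n 0 (-z/q0) 0 m) := by
      intro z hz
      rw [hMval z hz, hval]
      have : (1 - -z / (q0:ℂ)) = ((q0:ℂ) + z) / q0 := by field_simp; ring
      rw [this, div_pow, pow_succ (q0:ℂ) m]
      field_simp
    have key : ∀ ζ : ℂ, 0 < ζ.im → Polynomial.aeval ζ M ≠ 0 := by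
      intro ζ hζ h
      have hc : Polynomial.aeval (conj ζ) M = 0 := by
        rw [Polynomial.aeval_conj, h, map_zero]
      have hne : (q0 : ℂ) + conj ζ ≠ 0 := by
        intro h'
        have := congrArg Complex.im h'
        simp at this
        linarith
      rw [hMcc _ hne] at hc
      have hy : 0 < (-(conj ζ) / q0 : ℂ).im := by
        rw [him, Complex.conj_im, neg_neg]; positivity
      have hy1 : (-(conj ζ) / q0 : ℂ) ≠ 1 := by
        intro h'
        rw [h'] at hy
        simp at hy
      have := (inv0_all ha hy (rec0_cc a n _ hy1) m).2 0 (by omega)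
      exact (mul_ne_zero (pow_ne_zero _ hq0c) this) hc
    -- the value at the pole
    have hpole : Polynomial.aeval (-(q0:ℂ)) M ≠ 0 := by
      set φ := ((Polynomial.aeval (-(q0:ℂ)) : Polynomial ℝ →ₐ[ℝ] ℂ) : Polynomial ℝ →+* ℂ) with hφ
      have h1 := congrArg (PowerSeries.map φ) hBinv
      rw [map_mul, map_one] at h1
      have hq1 : (Q.coeff 1 : ℂ) ≠ 0 := by
        have h2 := congrArg (PowerSeries.coeff 1) hfac
        rw [Polynomial.coeff_coe, Polynomial.coeff_map, PowerSeries.coeff_C_mul] at h2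
        have hPr1 : ∀ j : ℕ, PowerSeries.coeff 1 (Pr a j) = -∑ i ∈ range j, (a i : ℂ) := by
          intro j
          induction j with
          | zero => simp [Pr, PowerSeries.coeff_one]
          | succ j ih =>
            have e : Pr a (j+1) = Pr a j - PowerSeries.C (a j : ℂ) * (PowerSeries.X * Pr a j) := by
              rw [Pr_succ]; ring
            rw [e, map_sub, ih, PowerSeries.coeff_C_mul,
              show (1:ℕ) = 0 + 1 by norm_num, PowerSeries.coeff_succ_X_mul,
              PowerSeries.coeff_zero_eq_constantCoeff_apply, Pr_const, sum_range_succ]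
            ring
        rw [hPr1] at h2
        have h3 : (Q.coeff 1 : ℂ) = (q0:ℂ) * -∑ i ∈ range n, (a i : ℂ) := h2
        rw [h3]
        have h4 : 0 < ∑ i ∈ range n, a i := sum_pos (fun i _ => ha i) ⟨0, mem_range.mpr (by omega)⟩
        have h5 : (∑ i ∈ range n, (a i : ℂ)) ≠ 0 := by
          have : ((∑ i ∈ range n, a i : ℝ) : ℂ) ≠ 0 := by exact_mod_cast h4.ne'
          push_cast at this
          exact this
        exact mul_ne_zero hq0c (neg_ne_zero.mpr h5)
      have hBφ : PowerSeries.map φ (B Q) = 1 + PowerSeries.C (Q.coeff 1 : ℂ) * PowerSeries.X := by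
        ext j
        rw [PowerSeries.coeff_map, B, PowerSeries.coeff_mk, map_add, PowerSeries.coeff_one,
          PowerSeries.coeff_C_mul, PowerSeries.coeff_X]
        rcases j with _ | _ | j
        · simp
        · simp [hφ]
        · rw [if_neg (by omega), if_neg (by omega), if_neg (by omega)]
          have e : φ (Polynomial.C (Polynomial.eval 0 Q) + Polynomial.X) = 0 := by
            simp [hφ, ← hq0]
          rw [map_mul, map_pow, e, show j + 1 + 1 - 1 = j + 1 by omega]
          simp
      rw [hBφ] at h1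
      -- coefficients of the inverse of `1 + q t`
      set g := PowerSeries.map φ (PowerSeries.invOfUnit (B Q) 1) with hg
      have hcoef : ∀ k, PowerSeries.coeff k g = (-(Q.coeff 1 : ℂ))^k := by
        intro k
        induction k with
        | zero =>
          have := congrArg (PowerSeries.constantCoeff) h1
          rw [map_mul, map_one] at this
          simp at this
          rw [PowerSeries.coeff_zero_eq_constantCoeff_apply, pow_zero]
          exact this
        | succ k ih =>
          have e : (1 + PowerSeries.C (Q.coeff 1 : ℂ) * PowerSeries.X) * g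
              = g + PowerSeries.C (Q.coeff 1 : ℂ) * (PowerSeries.X * g) := by ring
          rw [e] at h1
          have h2 := congrArg (PowerSeries.coeff (k+1)) h1
          rw [map_add, PowerSeries.coeff_C_mul, PowerSeries.coeff_succ_X_mul, ih,
            PowerSeries.coeff_one, if_neg (by omega)] at h2
          rw [pow_succ]
          linear_combination h2
      have : Polynomial.aeval (-(q0:ℂ)) M = PowerSeries.coeff m g := by
        rw [hg, PowerSeries.coeff_map]; rfl
      rw [this, hcoef]
      exact pow_ne_zero _ (neg_ne_zero.mpr hq1)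
    have hreal : ∀ x : ℝ, x ≤ 0 → Polynomial.aeval (x : ℂ) M ≠ 0 := by
      intro x hx
      by_cases hx0 : x = -q0
      · rw [hx0]; push_cast; exact hpole
      · have hne : (q0 : ℂ) + x ≠ 0 := by
          intro h
          apply hx0
          have : ((q0 + x : ℝ) : ℂ) = 0 := by push_cast; exact h
          have h3 : q0 + x = 0 := by exact_mod_cast this
          linarith
        rw [hMcc _ hne]
        have e : (-(x:ℂ) / q0) = ((-x / q0 : ℝ) : ℂ) := by push_cast; ring
        have hy1 : (-(x:ℂ) / q0) ≠ 1 := by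
          intro h
          apply hne
          have : -(x:ℂ) = q0 := by
            rw [div_eq_one_iff_eq hq0c] at h; exact h
          linear_combination -this
        have hrec := rec0_cc a n _ hy1
        rw [e] at hrec ⊢
        have := pos0 a ha n (-x / q0) (div_nonneg (by linarith) h0.le) _ hrec m 0 (by omega)
        exact mul_ne_zero (pow_ne_zero _ hq0c) this.ne'
    refine ⟨M, ?_, ?_, ?_, ?_⟩
    · intro h
      apply hpole
      rw [h]; simp
    · intro z hz
      have hne : (q0 : ℂ) + z ≠ 0 := fun h => hz (by linear_combination h)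
      rw [hMval z hne]
      field_simp
    · intro h
      apply hpole
      have e : Polynomial.aeval (-(q0:ℂ)) M = ((M.eval (-q0) : ℝ) : ℂ) := by
        have : (-(q0:ℂ)) = algebraMap ℝ ℂ (-q0) := by simp
        rw [this, Polynomial.aeval_algebraMap_apply]
        simp
      rw [e, h]; simp
    · intro ζ hζ
      have h1 : ζ.im = 0 := by
        rcases lt_trichotomy ζ.im 0 with h | h | h
        · exfalso
          apply key (conj ζ) (by rw [Complex.conj_im]; linarith)
          rw [Polynomial.aeval_conj, hζ, map_zero]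
        · exact h
        · exact absurd hζ (key ζ h)
      refine ⟨h1, ?_⟩
      by_contra h2
      push Not at h2
      apply hreal ζ.re h2
      have : ((ζ.re : ℝ) : ℂ) = ζ := by apply Complex.ext <;> simp [h1]
      rw [this]; exact hζ

end Pool.Agent.Results.MP_60133c_an.AllZerosPositive
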